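import Mathlib
import Pool.Agent.BiInv.Local

set_option autoImplicit false

namespace Pool.Agent.Results.MP_123441_al.GapDoubling

open Pool.BiInv

/-- Let `ρ` be a bi-invariant metric on `F_n` and `σ` an approximable bi-invariant pseudometric
with `σ(1,g) + m ≤ ρ(1,g)` for all `g ≠ 1`, where `m > 0`. Then every finite set `A` with
`ρ ≤ σ + 2m` on `A` embeds exactly. The second part is the case `σ = 0`. -/
theorem result (n : ℕ) (ρ : FreeGroup (Fin n) → FreeGroup (Fin n) → ℝ) (m : ℝ) (hm : 0 < m)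
    (hρ : IsBiInvMetric ρ) :
    (∀ σ : FreeGroup (Fin n) → FreeGroup (Fin n) → ℝ, IsBiInvPseudo σ → Approximable σ →
      (∀ g, g ≠ 1 → σ 1 g + m ≤ ρ 1 g) →
      ∀ A : Finset (FreeGroup (Fin n)), (∀ a ∈ A, ∀ b ∈ A, ρ a b ≤ σ a b + 2 * m) →
        Embeds ρ A 0) ∧
    ((∀ g, g ≠ 1 → m ≤ ρ 1 g) →
      ∀ A : Finset (FreeGroup (Fin n)), (∀ a ∈ A, ∀ b ∈ A, ρ a b ≤ 2 * m) → Embeds ρ A 0) := by
  refine ⟨fun σ hσ hσa hgap A hA =>
    local_embeds ρ σ m hm hρ hσ (profSub_of_approximable σ hσa) hgap A hA, fun hgap A hA => ?_⟩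
  exact local_embeds ρ (fun _ _ => 0) m hm hρ zero_pseudo zero_profSub
    (fun g hg => by simpa using hgap g hg) A (fun a ha b hb => by simpa using hA a ha b hb)

end Pool.Agent.Results.MP_123441_al.GapDoubling
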