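import Mathlib
import Pool.Agent.BiInv.Local

set_option autoImplicit false

namespace Pool.Agent.Results.MP_123441_al.NearClassTwo

open Pool.BiInv

/-- A bi-invariant pseudometric `σ` on `F_n` such that for every `ε > 0` some normal subgroup `N`
of finite index satisfies `σ(1,w) ≤ ε` for all `w ∈ ⁅⁅N, F_n⁆, N⁆` is approximable, and exactly so
on every finite set whose points it separates. -/
theorem result (n : ℕ) (σ : FreeGroup (Fin n) → FreeGroup (Fin n) → ℝ) (hσ : IsBiInvPseudo σ)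
    (h : ∀ ε : ℝ, 0 < ε → ∃ N : Subgroup (FreeGroup (Fin n)), N.Normal ∧ N.FiniteIndex ∧
      ∀ w ∈ ⁅⁅N, (⊤ : Subgroup (FreeGroup (Fin n)))⁆, N⁆, σ 1 w ≤ ε) :
    Approximable σ ∧
    ∀ A : Finset (FreeGroup (Fin n)), (∀ a ∈ A, ∀ b ∈ A, a ≠ b → 0 < σ a b) → Embeds σ A 0 := by
  have hs : ProfSub σ := profSub_of_class2 σ hσ h
  exact ⟨approximable_of_profSub σ hσ hs, fun A hA => embeds_zero_of_profSub σ hσ hs A hA⟩

end Pool.Agent.Results.MP_123441_al.NearClassTwo
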