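import Mathlib
import Pool.Agent.BiInv.Local

set_option autoImplicit false

namespace Pool.Agent.Results.MP_123441_al.ProfiniteCriterion

open Pool.BiInv

/-- The question has a positive answer for a bi-invariant (pseudo)metric `ρ` on `F_n` if and only
if `ρ` is profinitely subadditive; for metrics this is equivalent to the exact (`ε = 0`) form. -/
theorem result (n : ℕ) (ρ : FreeGroup (Fin n) → FreeGroup (Fin n) → ℝ) :
    (IsBiInvPseudo ρ → (Approximable ρ ↔ ProfSub ρ)) ∧
    (IsBiInvMetric ρ → (Approximable ρ ↔ ∀ A : Finset (FreeGroup (Fin n)), Embeds ρ A 0)) :=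
  criterion ρ

end Pool.Agent.Results.MP_123441_al.ProfiniteCriterion
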